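import Pool.Agent.Q273.PN.Law

/-!
# Monotonicity of the truncated counting function
-/

set_option autoImplicit false
set_option linter.unusedSectionVars false

namespace Q273.PN

open NumberField NumberField.mixedEmbedding NumberField.InfinitePlace
open IsDedekindDomain Pool.Agent.W232.VA Pool.Agent.H691R3 Height LinearAlgebra.Projectivization
open Q273.MV Q273.AD

variable {K : Type} [Field K] [NumberField K] {n : ℕ}

lemma N1_mono (S : Finset (HeightOneSpectrum (𝓞 K))) {r s : ℕ} {a : Fin r → Fin (n + 1) → K}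
    (ha : ∀ i, a i ≠ 0) {x : Fin (n + 1) → K} (hx : x ≠ 0) (hl : ∀ i, lin (a i) x ≠ 0)
    (g : Fin s → Fin r) : N1 S (fun i => a (g i)) x ≤ N1 S a x := by
  classical
  obtain ⟨T, hT⟩ := exists_T ha hx hl
  have hsupp : ∀ {t : ℕ} (b : Fin t → Fin (n + 1) → K) (hb : ∀ i, ∃ k, b i = a k),
      N1 S b x = ∑ v ∈ T, if v ∉ S ∧
        ∃ i, 0 < Pool.Agent.W232.VA.lam (fv v) (b i) x then Real.log (Nv v) else 0 := by
    intro t b hb
    unfold N1
    refine finsum_eq_sum_of_support_subset _ ?_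
    intro v hv
    by_contra hvT
    apply hv
    simp only
    rw [if_neg]
    rintro ⟨_, i, hi⟩
    obtain ⟨k, hk⟩ := hb i
    rw [hk, hT v hvT k] at hi
    exact lt_irrefl _ hi
  rw [hsupp (fun i => a (g i)) fun i => ⟨_, rfl⟩, hsupp a fun i => ⟨_, rfl⟩]
  refine Finset.sum_le_sum fun v _ => ?_
  have hN := (log_Nv_pos v).le
  by_cases h1 : v ∉ S ∧ ∃ i, 0 < Pool.Agent.W232.VA.lam (fv v) (a (g i)) x
  · obtain ⟨h2, i, hi⟩ := h1
    rw [if_pos ⟨h2, i, hi⟩, if_pos ⟨h2, g i, hi⟩]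
  · rw [if_neg h1]
    split_ifs
    · exact hN
    · exact le_rfl

end Q273.PN
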