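import Pool.Agent.Q273.PN.Law
import Pool.Agent.Q273.AD.Fin

/-!
# Points of the hyperplane `z_0 + ... + z_(n + 1) = 0`
-/

set_option autoImplicit false
set_option linter.unusedSectionVars false

namespace Q273.PN

open MeasureTheory NumberField NumberField.mixedEmbedding NumberField.InfinitePlace
open IsDedekindDomain Pool.Agent.W232.VA Pool.Agent.H691R3 Height LinearAlgebra.Projectivization
open Q273.MV Q273.AD

variable {K : Type} [Field K] {n : ℕ}

/-- the linear forms `x_0, ..., x_n, -(x_0 + ... + x_n)` -/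
def fm (K : Type) [Field K] (n : ℕ) (i : Fin (n + 2)) : Fin (n + 1) → K :=
  Fin.lastCases (fun _ => -1) (fun k => Pi.single k 1) i

lemma fm_last : fm K n (Fin.last (n + 1)) = fun _ => -1 := by
  unfold fm
  rw [Fin.lastCases_last]

lemma fm_cast (k : Fin (n + 1)) : fm K n k.castSucc = Pi.single k 1 := by
  unfold fm
  rw [Fin.lastCases_castSucc]

/-- the first coordinates -/
def ini (z : Fin (n + 2) → K) : Fin (n + 1) → K := fun k => z k.castSucc

lemma lin_fm {z : Fin (n + 2) → K} (hz : ∑ i, z i = 0) (i : Fin (n + 2)) :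
    lin (fm K n i) (ini z) = z i := by
  refine Fin.lastCases ?_ (fun k => ?_) i
  · rw [fm_last]
    unfold lin ini
    rw [Fin.sum_univ_castSucc] at hz
    simp only [neg_mul, one_mul, Finset.sum_neg_distrib]
    linear_combination -hz
  · rw [fm_cast]
    unfold lin ini
    simp [Pi.single_apply]

lemma fm_ne (i : Fin (n + 2)) : fm K n i ≠ 0 := by
  refine Fin.lastCases ?_ (fun k => ?_) i
  · rw [fm_last]
    intro h
    have := congrFun h 0
    simp at this
  · rw [fm_cast]
    intro h
    have := congrFun h k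
    simp at this

/-- the complement of one form is a basis -/
lemma fm_indep (j : Fin (n + 2)) : LinearIndependent K (fun i => fm K n (j.succAbove i)) := by
  rw [Fintype.linearIndependent_iff]
  intro g hg
  -- extend the relation by zero
  let c : Fin (n + 2) → K := Fin.insertNth j 0 g
  have hc0 : c j = 0 := by simp [c]
  have hcs : ∀ i, c (j.succAbove i) = g i := fun i => by simp [c]
  have h1 : ∑ i, c i • fm K n i = 0 := by
    rw [Fin.sum_univ_succAbove _ j, hc0, zero_smul, zero_add]
    simp only [hcs]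
    exact hg
  have h2 : ∀ k : Fin (n + 1), c k.castSucc = c (Fin.last (n + 1)) := by
    intro k
    have h3 := congrFun h1 k
    rw [Fin.sum_univ_castSucc, Pi.add_apply, Finset.sum_apply] at h3
    simp only [fm_cast, fm_last, Pi.smul_apply, smul_eq_mul, Pi.zero_apply, Pi.single_apply,
      mul_ite, mul_one, mul_zero, mul_neg] at h3
    rw [Finset.sum_ite_eq] at h3
    simp only [Finset.mem_univ, if_true] at h3
    linear_combination h3
  have h4 : c (Fin.last (n + 1)) = 0 := by
    refine Fin.lastCases (motive := fun j => c j = 0 → c (Fin.last (n + 1)) = 0) ?_ ?_ j hc0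
    · exact fun h => h
    · intro k hk
      rw [← h2 k]
      exact hk
  intro i
  rw [← hcs i]
  refine Fin.lastCases (motive := fun m => c m = 0) h4 (fun k => ?_) (j.succAbove i)
  rw [h2 k, h4]

lemma sup_fm (f : AbsoluteValue K ℝ) (i : Fin (n + 2)) : (⨆ j, f (fm K n i j)) = 1 := by
  refine Fin.lastCases ?_ (fun k => ?_) i
  · rw [fm_last]
    simp
  · rw [fm_cast]
    apply le_antisymm
    · refine ciSup_le fun j => ?_
      rw [Pi.single_apply]
      split_ifs
      · rw [f.map_one]
      · rw [f.map_zero]; norm_num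
    · refine Finite.le_ciSup_of_le (f := fun j => f (Pi.single (M := fun _ => K) k 1 j)) k ?_
      simp

lemma lam_fm (f : AbsoluteValue K ℝ) {z : Fin (n + 2) → K} (hz : ∑ i, z i = 0) (i : Fin (n + 2)) :
    Pool.Agent.W232.VA.lam f (fm K n i) (ini z) = Real.log ((⨆ j, f (ini z j)) / f (z i)) := by
  unfold Pool.Agent.W232.VA.lam
  rw [sup_fm, lin_fm hz, one_mul]

lemma ini_ne {z : Fin (n + 2) → K} (hz : ∀ i, z i ≠ 0) : ini z ≠ 0 := by
  intro h
  exact hz (0 : Fin (n + 1)).castSucc (congrFun h 0)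

variable [NumberField K]

lemma fv_sum_le (v : HeightOneSpectrum (𝓞 K)) {ι : Type} (s : Finset ι) (g : ι → K) {M : ℝ}
    (hM : 0 ≤ M) (h : ∀ i ∈ s, fv v (g i) ≤ M) : fv v (∑ i ∈ s, g i) ≤ M := by
  classical
  induction s using Finset.induction_on with
  | empty => simpa using hM
  | insert a s ha ih =>
    rw [Finset.sum_insert ha]
    have h1 : fv v (g a + ∑ i ∈ s, g i) ≤ max (fv v (g a)) (fv v (∑ i ∈ s, g i)) :=
      FinitePlace.add_le ⟨fv v, ⟨v, rfl⟩⟩ _ _
    refine h1.trans (max_le (h a (Finset.mem_insert_self _ _)) (ih fun i hi => ?_))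
    exact h i (Finset.mem_insert_of_mem hi)

/-- the primes at which the local height of a form other than `z_j` is positive -/
lemma bad_iff (v : HeightOneSpectrum (𝓞 K)) {z : Fin (n + 2) → K} (hz : ∑ i, z i = 0)
    (h0 : ∀ i, z i ≠ 0) (j : Fin (n + 2)) :
    (∃ i, 0 < Pool.Agent.W232.VA.lam (fv v) (fm K n (j.succAbove i)) (ini z)) ↔
      ∃ i i', i ≠ j ∧ i' ≠ j ∧ fv v (z i) ≠ fv v (z i') := by
  set M := ⨆ k, fv v (ini z k) with hM
  have hMpos : 0 < M := sup_pos (fv v) (ini_ne h0)
  have hle : ∀ i, fv v (z i) ≤ M := by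
    intro i
    refine Fin.lastCases ?_ (fun k => ?_) i
    · have h1 : z (Fin.last (n + 1)) = -∑ k : Fin (n + 1), z k.castSucc := by
        rw [Fin.sum_univ_castSucc] at hz
        linear_combination hz
      rw [h1, (fv v).map_neg]
      exact fv_sum_le v _ _ hMpos.le fun k _ => sup_le_of (fv v) (ini z) k
    · exact sup_le_of (fv v) (ini z) k
  have hlam : ∀ i : Fin (n + 2), 0 < Pool.Agent.W232.VA.lam (fv v) (fm K n i) (ini z) ↔
      fv v (z i) < M := by
    intro i
    have hp : 0 < fv v (z i) := (fv v).pos (h0 i)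
    rw [lam_fm _ hz, ← hM, Real.log_pos_iff (by positivity), lt_div_iff₀ hp, one_mul]
  have hatt : ∃ i', i' ≠ j ∧ fv v (z i') = M := by
    obtain ⟨k, hk⟩ := sup_att (fv v) (ini z)
    by_cases hkj : k.castSucc = j
    · by_contra hno
      push Not at hno
      have h1 : z j = -∑ i, z (j.succAbove i) := by
        rw [Fin.sum_univ_succAbove _ j] at hz
        linear_combination hz
      obtain ⟨i0, hi0⟩ := sup_att (fv v) (fun i => z (j.succAbove i))
      have h2 : fv v (z j) ≤ fv v (z (j.succAbove i0)) := by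
        rw [h1, (fv v).map_neg]
        refine fv_sum_le v _ _ ((fv v).nonneg _) fun i _ => ?_
        rw [← hi0]
        exact sup_le_of (fv v) (fun i => z (j.succAbove i)) i
      have h3 : fv v (z (j.succAbove i0)) = M := by
        apply le_antisymm (hle _)
        have : fv v (z j) = M := by
          rw [← hkj]
          exact hk.symm
        rw [← this]
        exact h2
      exact hno _ (Fin.succAbove_ne j i0) h3
    · exact ⟨k.castSucc, hkj, hk.symm⟩
  constructor
  · rintro ⟨i, hi⟩
    obtain ⟨i', hi', he⟩ := hatt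
    refine ⟨j.succAbove i, i', Fin.succAbove_ne j i, hi', ?_⟩
    rw [he]
    exact ((hlam _).1 hi).ne
  · rintro ⟨i, i', hi, hi', hne⟩
    obtain ⟨a, rfl⟩ := Fin.exists_succAbove_eq hi
    obtain ⟨b, rfl⟩ := Fin.exists_succAbove_eq hi'
    rcases lt_or_gt_of_ne hne with h | h
    · exact ⟨a, (hlam _).2 (lt_of_lt_of_le h (hle _))⟩
    · exact ⟨b, (hlam _).2 (lt_of_lt_of_le h (hle _))⟩

lemma mulHeight_single_one (m : ℕ) :
    mulHeight (Pi.single 0 1 : Fin (m + 1) → K) = 1 := by
  rw [mulHeight_eq_mulHeight_restrict_support]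
  have : Subsingleton (Function.support (Pi.single 0 1 : Fin (m + 1) → K)) := by
    constructor
    rintro ⟨a, ha⟩ ⟨b, hb⟩
    have h : ∀ c : Fin (m + 1), c ∈ Function.support (Pi.single 0 1 : Fin (m + 1) → K) →
        c = 0 := by
      intro c hc
      by_contra hne
      exact hc (by rw [Pi.single_apply, if_neg hne])
    exact Subtype.ext ((h a ha).trans (h b hb).symm)
  exact mulHeight_eq_one_of_subsingleton _

/-- the logarithmic heights of the point and of its first coordinates -/
lemma height_ini {z : Fin (n + 2) → K} (hz : ∑ i, z i = 0) (h0 : ∀ i, z i ≠ 0) :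
    Real.log (mulHeight (ini z)) ≤ Real.log (mulHeight z) ∧
      Real.log (mulHeight z) ≤ Real.log (mulHeight (ini z)) +
        Module.finrank ℚ K * Real.log (n + 1) := by
  classical
  have hz0 : z ≠ 0 := fun h => h0 0 (congrFun h 0)
  have hi0 : ini z ≠ 0 := ini_ne h0
  let e : Fin (n + 2) → K := Pi.single 0 1
  let e' : Fin (n + 1) → K := Pi.single 0 1
  have he : e ≠ 0 := by
    intro h
    have := congrFun h 0
    simp [e] at this
  have he' : e' ≠ 0 := by
    intro h
    have := congrFun h 0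
    simp [e'] at this
  have hl : lin (n := n + 1) e z = z 0 := by
    unfold lin
    simp [e, Pi.single_apply]
  have hl' : lin e' (ini z) = z 0 := by
    unfold lin ini
    simp [e', Pi.single_apply]
  have hs : ∀ f : AbsoluteValue K ℝ, (⨆ j, f (e j)) = 1 := by
    intro f
    apply le_antisymm
    · refine ciSup_le fun j => ?_
      simp only [e, Pi.single_apply]
      split_ifs
      · rw [f.map_one]
      · rw [f.map_zero]; norm_num
    · refine Finite.le_ciSup_of_le (f := fun j => f (e j)) 0 ?_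
      simp [e]
  have hs' : ∀ f : AbsoluteValue K ℝ, (⨆ j, f (e' j)) = 1 := by
    intro f
    apply le_antisymm
    · refine ciSup_le fun j => ?_
      simp only [e', Pi.single_apply]
      split_ifs
      · rw [f.map_one]
      · rw [f.map_zero]; norm_num
    · refine Finite.le_ciSup_of_le (f := fun j => f (e' j)) 0 ?_
      simp [e']
  have hL : ∀ f : AbsoluteValue K ℝ, Pool.Agent.W232.VA.lam (n := n + 1) f e z =
      Real.log ((⨆ j, f (z j)) / f (z 0)) := by
    intro f
    unfold Pool.Agent.W232.VA.lam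
    rw [hs, hl, one_mul]
  have hL' : ∀ f : AbsoluteValue K ℝ, Pool.Agent.W232.VA.lam f e' (ini z) =
      Real.log ((⨆ j, f (ini z j)) / f (z 0)) := by
    intro f
    unfold Pool.Agent.W232.VA.lam
    rw [hs', hl', one_mul]
  have hge : ∀ f : AbsoluteValue K ℝ, (⨆ j, f (ini z j)) ≤ ⨆ j, f (z j) := by
    intro f
    refine ciSup_le fun k => ?_
    exact sup_le_of (n := n + 1) f z k.castSucc
  have hposi : ∀ f : AbsoluteValue K ℝ, 0 < ⨆ j, f (ini z j) := fun f => sup_pos f hi0
  have hpos0 : ∀ f : AbsoluteValue K ℝ, 0 < f (z 0) := fun f => f.pos (h0 0)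
  have h1 : ∀ f : AbsoluteValue K ℝ, Pool.Agent.W232.VA.lam f e' (ini z) ≤
      Pool.Agent.W232.VA.lam (n := n + 1) f e z := by
    intro f
    rw [hL, hL']
    exact Real.log_le_log (div_pos (hposi f) (hpos0 f))
      (div_le_div_of_nonneg_right (hge f) (hpos0 f).le)
  have hlast : z (Fin.last (n + 1)) = -∑ k : Fin (n + 1), z k.castSucc := by
    rw [Fin.sum_univ_castSucc] at hz
    linear_combination hz
  have h2 : ∀ v : HeightOneSpectrum (𝓞 K), Pool.Agent.W232.VA.lam (fv v) e' (ini z) =
      Pool.Agent.W232.VA.lam (n := n + 1) (fv v) e z := by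
    intro v
    rw [hL, hL']
    congr 2
    apply le_antisymm (hge _)
    refine ciSup_le fun i => ?_
    refine Fin.lastCases ?_ (fun k => ?_) i
    · rw [hlast, (fv v).map_neg]
      exact fv_sum_le v _ _ (hposi _).le fun k _ => sup_le_of (fv v) (ini z) k
    · exact sup_le_of (fv v) (ini z) k
  have hn0 : (0 : ℝ) ≤ n := Nat.cast_nonneg n
  have h3 : ∀ w : InfinitePlace K, Pool.Agent.W232.VA.lam (n := n + 1) w.1 e z ≤
      Pool.Agent.W232.VA.lam w.1 e' (ini z) + Real.log (n + 1) := by
    intro w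
    rw [hL, hL', ← Real.log_mul (div_pos (hposi w.1) (hpos0 w.1)).ne' (by positivity)]
    refine Real.log_le_log (div_pos (sup_pos (n := n + 1) w.1 hz0) (hpos0 w.1)) ?_
    rw [div_mul_eq_mul_div]
    refine div_le_div_of_nonneg_right ?_ (hpos0 w.1).le
    refine ciSup_le fun i => ?_
    refine Fin.lastCases ?_ (fun k => ?_) i
    · rw [hlast, w.1.map_neg]
      refine (w.1.sum_le _ _).trans ?_
      refine (Finset.sum_le_sum fun k (_ : k ∈ Finset.univ) =>
        sup_le_of w.1 (ini z) k).trans ?_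
      rw [Finset.sum_const, Finset.card_univ, Fintype.card_fin, nsmul_eq_mul]
      push_cast
      exact (mul_comm _ _).le
    · have h4 := sup_le_of w.1 (ini z) k
      have h5 := (hposi w.1).le
      have h6 : (⨆ j, w.1 (ini z j)) ≤ (⨆ j, w.1 (ini z j)) * ((n : ℝ) + 1) := by
        nlinarith
      exact h4.trans h6
  obtain ⟨T, hT⟩ : ∃ T : Finset (HeightOneSpectrum (𝓞 K)),
      ∀ v ∉ T, Pool.Agent.W232.VA.lam (n := n + 1) (fv v) e z = 0 := by
    have hf := lam_support (n := n + 1) he hz0 (by rw [hl]; exact h0 0)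
    refine ⟨hf.toFinset, fun v hv => ?_⟩
    by_contra hne
    exact hv ((Set.Finite.mem_toFinset _).2 hne)
  have e1 := sum_lam' (n := n + 1) he hz0 (by rw [hl]; exact h0 0) T hT
  have e2 := sum_lam' he' hi0 (by rw [hl']; exact h0 0) T fun v hv => by rw [h2 v, hT v hv]
  have m1 : mulHeight e = 1 ∧ mulHeight e' = 1 := by
    constructor
    · exact mulHeight_single_one (n + 1)
    · exact mulHeight_single_one n
  rw [m1.1, Real.log_one, zero_add] at e1
  rw [m1.2, Real.log_one, zero_add] at e2
  have e3 : ∑ v ∈ T, Pool.Agent.W232.VA.lam (fv v) e' (ini z) =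
      ∑ v ∈ T, Pool.Agent.W232.VA.lam (n := n + 1) (fv v) e z :=
    Finset.sum_congr rfl fun v _ => h2 v
  rw [e3] at e2
  have e4 : ∑ w : InfinitePlace K, (w.mult : ℝ) * Pool.Agent.W232.VA.lam w.1 e' (ini z) ≤
      ∑ w : InfinitePlace K, (w.mult : ℝ) * Pool.Agent.W232.VA.lam (n := n + 1) w.1 e z :=
    Finset.sum_le_sum fun w _ => mul_le_mul_of_nonneg_left (h1 w.1) (Nat.cast_nonneg _)
  have e5 : ∑ w : InfinitePlace K, (w.mult : ℝ) * Pool.Agent.W232.VA.lam (n := n + 1) w.1 e z ≤
      ∑ w : InfinitePlace K, (w.mult : ℝ) * (Pool.Agent.W232.VA.lam w.1 e' (ini z) +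
        Real.log (n + 1)) :=
    Finset.sum_le_sum fun w _ => mul_le_mul_of_nonneg_left (h3 w) (Nat.cast_nonneg _)
  have e6 : ∑ w : InfinitePlace K, (w.mult : ℝ) * (Pool.Agent.W232.VA.lam w.1 e' (ini z) +
        Real.log (n + 1)) = ∑ w : InfinitePlace K, (w.mult : ℝ) *
        Pool.Agent.W232.VA.lam w.1 e' (ini z) + Module.finrank ℚ K * Real.log (n + 1) := by
    rw [← sum_mult_real, Finset.sum_mul, ← Finset.sum_add_distrib]
    exact Finset.sum_congr rfl fun w _ => mul_add _ _ _
  constructor <;> linarith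

end Q273.PN
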