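import Pool.Agent.Q14.PN.Cntr
import Pool.Agent.Q273.AD.Up

/-!
# The upper law for a simplex of hyperplanes, all points
-/

set_option autoImplicit false
set_option linter.unusedSectionVars false

namespace Q273.PN

open MeasureTheory NumberField NumberField.mixedEmbedding NumberField.InfinitePlace
open IsDedekindDomain Pool.Agent.W232.VA Pool.Agent.H691R3 Height LinearAlgebra.Projectivization
open Q273.MV Q273.AD

variable {K : Type} [Field K] [NumberField K] {n : ℕ}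

lemma forms_ne {a : Fin (n + 1) → Fin (n + 1) → K} (ha : LinearIndependent K a) (i : Fin (n + 1)) :
    a i ≠ 0 := ha.ne_zero i

/-- lower bound for the height of the arrangement -/
lemma hW_ge {a : Fin (n + 1) → Fin (n + 1) → K} (ha : LinearIndependent K a)
    {x : Fin (n + 1) → K} (hx : x ≠ 0) (hl : ∀ i, lin (a i) x ≠ 0) :
    ((n : ℝ) + 1) * Real.log (mulHeight x) ≤ hW a x := by
  classical
  obtain ⟨T, hT⟩ := exists_T (forms_ne ha) hx hl
  rw [hW_eq' hT]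
  have hu : LinearIndependent K (fun i : (Finset.univ : Finset (Fin (n + 1))) => a i) :=
    ha.comp _ Subtype.val_injective
  have h1 : ∀ w : InfinitePlace K, (w.mult : ℝ) * ∑ i, Pool.Agent.W232.VA.lam w.1 (a i) x ≤
      (w.mult : ℝ) * wt w.1 a x := fun w =>
    mul_le_mul_of_nonneg_left (le_wt w.1 a x Finset.univ hu) (Nat.cast_nonneg _)
  have h2 : ∀ v : HeightOneSpectrum (𝓞 K), ∑ i, Pool.Agent.W232.VA.lam (fv v) (a i) x ≤
      wt (fv v) a x := fun v => le_wt (fv v) a x Finset.univ hu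
  have h3 := Finset.sum_le_sum fun (w : InfinitePlace K) (_ : w ∈ Finset.univ) => h1 w
  have h4 := Finset.sum_le_sum fun (v : HeightOneSpectrum (𝓞 K)) (_ : v ∈ T) => h2 v
  have h6 : ∑ i, (∑ w : InfinitePlace K, (w.mult : ℝ) * Pool.Agent.W232.VA.lam w.1 (a i) x +
      ∑ v ∈ T, Pool.Agent.W232.VA.lam (fv v) (a i) x) =
      ∑ i, (Real.log (mulHeight (a i)) + Real.log (mulHeight x)) :=
    Finset.sum_congr rfl fun i _ =>
      sum_lam' (forms_ne ha i) hx (hl i) T fun v hv => hT v hv i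
  rw [Finset.sum_add_distrib, Finset.sum_add_distrib, Finset.sum_const, Finset.card_univ,
    Fintype.card_fin, nsmul_eq_mul] at h6
  push_cast at h6
  have h7 : 0 ≤ ∑ i, Real.log (mulHeight (a i)) := Finset.sum_nonneg fun i _ =>
    Real.log_nonneg (one_le_mulHeight _)
  have h8 : ∑ w : InfinitePlace K, (w.mult : ℝ) * ∑ i, Pool.Agent.W232.VA.lam w.1 (a i) x =
      ∑ i, ∑ w : InfinitePlace K, (w.mult : ℝ) * Pool.Agent.W232.VA.lam w.1 (a i) x := by
    rw [Finset.sum_comm]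
    exact Finset.sum_congr rfl fun w _ => Finset.mul_sum _ _ _
  have h9 : ∑ v ∈ T, ∑ i, Pool.Agent.W232.VA.lam (fv v) (a i) x =
      ∑ i, ∑ v ∈ T, Pool.Agent.W232.VA.lam (fv v) (a i) x := Finset.sum_comm
  rw [h8] at h3
  rw [h9] at h4
  linarith

lemma N1_nonneg (S : Finset (HeightOneSpectrum (𝓞 K))) {r : ℕ} (a : Fin r → Fin (n + 1) → K)
    (x : Fin (n + 1) → K) : 0 ≤ N1 S a x := by
  unfold N1
  refine finsum_nonneg fun v => ?_
  split_ifs
  · exact (log_Nv_pos v).le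
  · exact le_rfl

/-- the upper law at an adelic point for a simplex -/
def LawSx (p : (Fin n → mixedSpace K) × FinAd K n) (S : Finset (HeightOneSpectrum (𝓞 K)))
    (a : Fin (n + 1) → Fin (n + 1) → K) : Prop :=
  ∀ (V : Finset (HeightOneSpectrum (𝓞 K))) (ε : ℝ), 0 < ε → ∃ C : ℝ,
      ∀ P : ℙ K (Fin (n + 1) → K), (∀ i, lin (a i) P.rep ≠ 0) →
        n * prA V p (aff P) ≤ N1 S a P.rep + ε * Real.log P.mulHeight + C

open scoped Classical in
theorem lawS (hfae : S_FAE) (hn : 1 ≤ n) [MeasurableSpace (FinAd K n)] [BorelSpace (FinAd K n)]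
    (μ : Measure (FinAd K n)) [IsFiniteMeasure μ] [μ.IsAddLeftInvariant] :
    ∀ᵐ p : (Fin n → mixedSpace K) × FinAd K n ∂(volume.prod μ),
      ∀ a : Fin (n + 1) → Fin (n + 1) → K, LinearIndependent K a →
      ∀ S : Finset (HeightOneSpectrum (𝓞 K)), LawSx p S a := by
  have : Countable K := Q273.Apx.countable_numberField K
  have : Countable (HeightOneSpectrum (𝓞 K)) := Q273.Apx.countable_primes K
  have : Countable (ℙ K (Fin (n + 1) → K)) := by
    have h : Function.Surjective (fun v : {v : Fin (n + 1) → K // v ≠ 0} =>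
        Projectivization.mk K v.1 v.2) := fun P => ⟨⟨P.rep, P.rep_nonzero⟩, P.mk_rep⟩
    exact h.countable
  let ι : Type := {a : Fin (n + 1) → Fin (n + 1) → K // LinearIndependent K a} ×
    Finset (HeightOneSpectrum (𝓞 K)) × {κ : ℚ // 0 ≤ κ ∧ κ ≤ n + 1}
  have key : ∀ i : ι, ∀ᵐ p : (Fin n → mixedSpace K) × FinAd K n ∂(volume.prod μ),
      ∀ V : Finset (HeightOneSpectrum (𝓞 K)), ∀ ε : ℝ, 0 < ε → ∃ C : ℝ,
      ∀ P : ℙ K (Fin (n + 1) → K), ((∀ l, lin (i.1.1 l) P.rep ≠ 0) ∧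
        N1 i.2.1 i.1.1 P.rep ≤ hW i.1.1 P.rep - ((i.2.2.1 : ℚ) : ℝ) * Real.log P.mulHeight + 0) →
        (n : ℝ) * prA V p (aff P) ≤
          ((n : ℝ) + 1 - ((i.2.2.1 : ℚ) : ℝ) + ε) * Real.log P.mulHeight + C := by
    rintro ⟨⟨a, ha⟩, S, κ, hκ0, hκ1⟩
    have hκ0' : (0 : ℝ) ≤ (κ : ℝ) := by exact_mod_cast hκ0
    have hκ1' : (κ : ℝ) ≤ n + 1 := by
      have : ((κ : ℚ) : ℝ) ≤ ((n + 1 : ℚ) : ℝ) := by exact_mod_cast hκ1
      simpa using this
    have hn0 : (0 : ℝ) ≤ n := Nat.cast_nonneg n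
    refine up1A hfae hn μ aff (fun P => P.mulHeight) {P | (∀ l, lin (a l) P.rep ≠ 0) ∧
        N1 S a P.rep ≤ hW a P.rep - (κ : ℝ) * Real.log P.mulHeight + 0}
      (fun P _ => by rw [mulHeight_rep]; exact one_le_mulHeight P.rep) (by linarith)
      (fun δ hδ => ?_)
    obtain ⟨M, hM⟩ := Pool.Agent.Q14.PN.cntr K n a ha S (κ : ℝ) 0 δ hκ0' hκ1' hδ
    refine ⟨M, fun X hX => ?_⟩
    have hset : {P : ℙ K (Fin (n + 1) → K) | P ∈ {P : ℙ K (Fin (n + 1) → K) |
        (∀ l, lin (a l) P.rep ≠ 0) ∧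
        N1 S a P.rep ≤ hW a P.rep - (κ : ℝ) * Real.log P.mulHeight + 0} ∧
        P.mulHeight ≤ X} = Exc S a (κ : ℝ) 0 X := by
      ext P
      constructor
      · rintro ⟨⟨h1, h2⟩, h3⟩
        exact ⟨h1, h3, h2⟩
      · rintro ⟨h1, h3, h2⟩
        exact ⟨⟨h1, h2⟩, h3⟩
    rw [hset]
    exact hM X hX
  filter_upwards [ae_all_iff.2 key] with p hp
  intro a ha S V
  have hn0 : (0 : ℝ) ≤ n := Nat.cast_nonneg n
  obtain ⟨C0, hC0, hup0⟩ := Pool.Agent.Q14.PN.hW_le a (forms_ne ha)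
  have hup : ∀ j J : ℕ, 0 < J → j ≤ J → ∀ ε : ℝ, 0 < ε → ∃ C : ℝ,
      ∀ P ∈ {P : ℙ K (Fin (n + 1) → K) | ∀ i, lin (a i) P.rep ≠ 0},
      ((n : ℝ) + 1) * ((j : ℝ) / J) * Real.log P.mulHeight ≤ hW a P.rep - N1 S a P.rep →
      (n : ℝ) * prA V p (aff P) ≤
        ((n : ℝ) + 1 - ((n : ℝ) + 1) * ((j : ℝ) / J) + ε) * Real.log P.mulHeight + C := by
    intro j J hJ hj ε hε
    have hJ0 : (0 : ℚ) < J := by exact_mod_cast hJ
    obtain ⟨C, hC⟩ := hp ⟨⟨a, ha⟩, S, ⟨((n : ℚ) + 1) * ((j : ℚ) / J), by positivity, by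
      have h1 : (j : ℚ) / J ≤ 1 := by
        rw [div_le_one hJ0]
        exact_mod_cast hj
      have h2 : (0 : ℚ) ≤ (n : ℚ) + 1 := by positivity
      nlinarith⟩⟩ V ε hε
    refine ⟨C, fun P hP hle => ?_⟩
    have h2 := hC P ⟨hP, by
      push_cast
      linarith⟩
    push_cast at h2
    exact h2
  have h' := tradeoff2 (fun P : ℙ K (Fin (n + 1) → K) => Real.log P.mulHeight)
    (fun P => hW a P.rep - N1 S a P.rep) (fun P => (n : ℝ) * prA V p (aff P))
    {P | ∀ i, lin (a i) P.rep ≠ 0} (n0 := (n : ℝ) + 1) (κ0 := (n : ℝ) + 1) (by positivity)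
    (fun P hP => loss_nonneg S (forms_ne ha) P.rep_nonzero hP)
    (fun P _ => log_mulHeight_nonneg P) hup C0
  intro ε hε
  obtain ⟨C', hC'⟩ := h' ε hε
  refine ⟨C', fun P hP => ?_⟩
  have e : Real.log P.mulHeight = Real.log (mulHeight P.rep) := by rw [mulHeight_rep]
  have h1 := hup0 P.rep P.rep_nonzero hP
  have h2 := N1_nonneg S a P.rep
  have h3 := hC' P hP (by
    rw [e]
    linarith)
  have h4 := hW_ge ha P.rep_nonzero hP
  rw [← e] at h4
  linarith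

end Q273.PN
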