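import Pool.Agent.Q273.PN.Fin

/-!
# The abcd inequality near almost every adele
-/

set_option autoImplicit false
set_option linter.unusedSectionVars false

namespace Q273.PN

open MeasureTheory NumberField NumberField.mixedEmbedding NumberField.InfinitePlace
open IsDedekindDomain Pool.Agent.W232.VA Pool.Agent.H691R3 Height LinearAlgebra.Projectivization
open Q273.MV Q273.AD

variable {K : Type} [Field K] [NumberField K] {n : ℕ}

/-- the primes at which the absolute values of the coordinates other than `z_j` are not all equal -/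
def badOff (z : Fin (n + 2) → K) (j : Fin (n + 2)) : Set (HeightOneSpectrum (𝓞 K)) :=
  {v | ∃ i i', i ≠ j ∧ i' ≠ j ∧ FinitePlace.mk v (z i) ≠ FinitePlace.mk v (z i')}

/-- the sum of `log N(v)` over these primes -/
noncomputable def lrOff (z : Fin (n + 2) → K) (j : Fin (n + 2)) : ℝ :=
  ∑ᶠ v ∈ badOff z j, Real.log (Ideal.absNorm v.asIdeal : ℝ)

/-- the primes at which the absolute values of the coordinates are not all equal -/
def bad (z : Fin (n + 2) → K) : Set (HeightOneSpectrum (𝓞 K)) :=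
  {v | ∃ i i', FinitePlace.mk v (z i) ≠ FinitePlace.mk v (z i')}

/-- the sum of `log N(v)` over these primes -/
noncomputable def lr (z : Fin (n + 2) → K) : ℝ :=
  ∑ᶠ v ∈ bad z, Real.log (Ideal.absNorm v.asIdeal : ℝ)

lemma N1_eq {z : Fin (n + 2) → K} (hz : ∑ i, z i = 0) (h0 : ∀ i, z i ≠ 0) (j : Fin (n + 2)) :
    N1 ∅ (fun i => fm K n (j.succAbove i)) (ini z) = lrOff z j := by
  classical
  unfold N1 lrOff
  rw [finsum_mem_def]
  refine finsum_congr fun v => ?_
  have h := bad_iff v hz h0 j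
  by_cases hv : v ∈ badOff z j
  · rw [Set.indicator_of_mem hv, if_pos ⟨Finset.notMem_empty _, h.2 hv⟩]
    rfl
  · rw [Set.indicator_of_notMem hv, if_neg]
    rintro ⟨_, h1⟩
    exact hv (h.1 h1)

lemma bad_finite {z : Fin (n + 2) → K} (h0 : ∀ i, z i ≠ 0) : (bad z).Finite := by
  classical
  have h1 : ∀ i, {v : HeightOneSpectrum (𝓞 K) | Real.log (fv v (z i)) ≠ 0}.Finite := fun i =>
    log_fv_support_finite (h0 i)
  refine (Set.finite_iUnion h1).subset ?_
  rintro v ⟨i, i', hne⟩
  rw [Set.mem_iUnion]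
  by_contra hno
  push Not at hno
  apply hne
  have h2 : ∀ i, fv v (z i) = 1 := by
    intro i
    have h3 : Real.log (fv v (z i)) = 0 := by
      have := hno i
      rw [Set.mem_ofPred_eq, not_not] at this
      exact this
    have hp : 0 < fv v (z i) := (fv v).pos (h0 i)
    rcases Real.log_eq_zero.1 h3 with h | h | h
    · exact absurd h hp.ne'
    · exact h
    · linarith
  exact (h2 i).trans (h2 i').symm

lemma lrOff_le {z : Fin (n + 2) → K} (h0 : ∀ i, z i ≠ 0) (j : Fin (n + 2)) : lrOff z j ≤ lr z := by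
  classical
  have hf := bad_finite h0
  have hsub : badOff z j ⊆ bad z := by
    rintro v ⟨i, i', _, _, h⟩
    exact ⟨i, i', h⟩
  have hf' := hf.subset hsub
  unfold lrOff lr
  rw [finsum_mem_eq_finite_toFinset_sum _ hf, finsum_mem_eq_finite_toFinset_sum _ hf']
  refine Finset.sum_le_sum_of_subset_of_nonneg (Set.Finite.toFinset_subset_toFinset.2 hsub)
    fun v _ _ => (log_Nv_pos v).le

/-- the point of the projective space given by the first coordinates -/
lemma exists_point {z : Fin (n + 2) → K} (hz : ∑ i, z i = 0) (h0 : ∀ i, z i ≠ 0) :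
    ∃ P : ℙ K (Fin (n + 1) → K), P.mulHeight = mulHeight (ini z) ∧
      (∀ i, lin (fm K n i) P.rep ≠ 0) ∧
      (∀ j, N1 ∅ (fun i => fm K n (j.succAbove i)) P.rep = lrOff z j) ∧
      Q273.MV.aff P = fun j : Fin n => z j.succ.castSucc / z 0 := by
  have hx : ini z ≠ 0 := ini_ne h0
  let P := Projectivization.mk K (ini z) hx
  obtain ⟨t, ht⟩ := Projectivization.exists_smul_eq_mk_rep K (ini z) hx
  have ht0 : (t : K) ≠ 0 := t.ne_zero
  have hrep : P.rep = (t : K) • ini z := ht.symm
  refine ⟨P, ?_, ?_, ?_, ?_⟩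
  · exact Projectivization.mulHeight_mk _
  · intro i
    rw [hrep, lin_smul_right, lin_fm hz]
    exact mul_ne_zero ht0 (h0 i)
  · intro j
    rw [← N1_eq hz h0 j]
    exact (transfer ∅ (a := fun i => fm K n (j.succAbove i))
      (b := fun i => fm K n (j.succAbove i)) (s := 1) one_ne_zero ht0
      (fun i => (one_smul K _).symm) hrep).1
  · funext j
    unfold Q273.MV.aff
    rw [hrep]
    simp only [Pi.smul_apply, smul_eq_mul]
    rw [mul_div_mul_left _ _ ht0]
    rfl

/-- the proximity of the adelic point `p` to the point `z` -/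
noncomputable def px (V : Finset (HeightOneSpectrum (𝓞 K)))
    (p : (Fin n → mixedSpace K) × FinAd K n) (z : Fin (n + 2) → K) : ℝ :=
  prA V p (fun j : Fin n => z j.succ.castSucc / z 0)

open scoped Classical in
theorem upper (hn : 1 ≤ n) [MeasurableSpace (FinAd K n)] [BorelSpace (FinAd K n)]
    (μ : Measure (FinAd K n)) [IsFiniteMeasure μ] [μ.IsAddLeftInvariant] :
    ∀ᵐ p : (Fin n → mixedSpace K) × FinAd K n ∂(volume.prod μ),
      ∀ (V : Finset (HeightOneSpectrum (𝓞 K))) (ε : ℝ), 0 < ε → ∃ C : ℝ,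
      ∀ z : Fin (n + 2) → K, ∑ i, z i = 0 → (∀ i, z i ≠ 0) → ∀ j,
        n * px V p z ≤ lrOff z j + ε * Real.log (mulHeight z) + C := by
  classical
  filter_upwards [lawS Q273.AD.fae' hn μ] with p hp V ε hε
  choose C hC using fun j : Fin (n + 2) =>
    hp (fun i => fm K n (j.succAbove i)) (fm_indep j) ∅ V ε hε
  refine ⟨∑ j, |C j|, fun z hz h0 j => ?_⟩
  obtain ⟨P, h1, h2, h3, h4⟩ := exists_point hz h0
  have h5 := hC j P fun i => h2 _
  rw [h3 j, h4, h1] at h5
  have h6 := (height_ini hz h0).1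
  have h7 := Finset.single_le_sum (f := fun j => |C j|) (fun _ _ => abs_nonneg _)
    (Finset.mem_univ j)
  have h8 := le_abs_self (C j)
  have h9 : ε * Real.log (mulHeight (ini z)) ≤ ε * Real.log (mulHeight z) :=
    mul_le_mul_of_nonneg_left h6 hε.le
  unfold px
  linarith

/-! ### Optimality -/

lemma hW_total {z : Fin (n + 2) → K} (hz : ∑ i, z i = 0) (h0 : ∀ i, z i ≠ 0) :
    ((n : ℝ) + 2) * Real.log (mulHeight (ini z)) ≤ hW (fm K n) (ini z) := by
  classical
  have hx : ini z ≠ 0 := ini_ne h0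
  have hl : ∀ i, lin (fm K n i) (ini z) ≠ 0 := fun i => by rw [lin_fm hz]; exact h0 i
  obtain ⟨T, hT⟩ := exists_T (a := fm K n) fm_ne hx hl
  rw [hW_eq' hT]
  have key : ∀ f : AbsoluteValue K ℝ,
      ∑ i, Pool.Agent.W232.VA.lam f (fm K n i) (ini z) ≤ wt f (fm K n) (ini z) := by
    intro f
    obtain ⟨i0, hi0⟩ := sup_att (n := n + 1) f z
    have hI : LinearIndependent K
        (fun i : (Finset.univ.erase i0 : Finset (Fin (n + 2))) => fm K n i) := by
      have hg : ∀ i : (Finset.univ.erase i0 : Finset (Fin (n + 2))), ∃ k, i0.succAbove k = i :=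
        fun i => Fin.exists_succAbove_eq (Finset.ne_of_mem_erase i.2)
      choose g hg using hg
      have hinj : Function.Injective g := by
        intro a b hab
        apply Subtype.ext
        rw [← hg a, ← hg b, hab]
      have h1 := (fm_indep (K := K) i0).comp g hinj
      have h2 : (fun i : (Finset.univ.erase i0 : Finset (Fin (n + 2))) => fm K n i) =
          (fun i => fm K n (i0.succAbove i)) ∘ g := by
        funext i
        simp only [Function.comp]
        rw [hg i]
      rw [h2]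
      exact h1
    have h1 := le_wt f (fm K n) (ini z) (Finset.univ.erase i0) hI
    have h2 : Pool.Agent.W232.VA.lam f (fm K n i0) (ini z) ≤ 0 := by
      rw [lam_fm f hz]
      refine Real.log_nonpos (div_nonneg (sup_pos f hx).le (f.nonneg _)) ?_
      rw [div_le_one (f.pos (h0 i0)), ← hi0]
      exact ciSup_le fun k => sup_le_of (n := n + 1) f z k.castSucc
    have h3 := Finset.add_sum_erase Finset.univ
      (fun i => Pool.Agent.W232.VA.lam f (fm K n i) (ini z)) (Finset.mem_univ i0)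
    linarith
  have h3 := Finset.sum_le_sum fun (w : InfinitePlace K) (_ : w ∈ Finset.univ) =>
    mul_le_mul_of_nonneg_left (key w.1) (Nat.cast_nonneg w.mult : (0 : ℝ) ≤ w.mult)
  have h4 := Finset.sum_le_sum fun (v : HeightOneSpectrum (𝓞 K)) (_ : v ∈ T) => key (fv v)
  have h6 : ∑ i, (∑ w : InfinitePlace K, (w.mult : ℝ) *
        Pool.Agent.W232.VA.lam w.1 (fm K n i) (ini z) +
      ∑ v ∈ T, Pool.Agent.W232.VA.lam (fv v) (fm K n i) (ini z)) =
      ∑ i, (Real.log (mulHeight (fm K n i)) + Real.log (mulHeight (ini z))) :=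
    Finset.sum_congr rfl fun i _ => sum_lam' (fm_ne i) hx (hl i) T fun v hv => hT v hv i
  rw [Finset.sum_add_distrib, Finset.sum_add_distrib, Finset.sum_const, Finset.card_univ,
    Fintype.card_fin, nsmul_eq_mul] at h6
  push_cast at h6
  have h7 : 0 ≤ ∑ i, Real.log (mulHeight (fm K n i)) := Finset.sum_nonneg fun i _ =>
    Real.log_nonneg (one_le_mulHeight _)
  have h8 : ∑ w : InfinitePlace K, (w.mult : ℝ) *
      ∑ i, Pool.Agent.W232.VA.lam w.1 (fm K n i) (ini z) =
      ∑ i, ∑ w : InfinitePlace K, (w.mult : ℝ) *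
        Pool.Agent.W232.VA.lam w.1 (fm K n i) (ini z) := by
    rw [Finset.sum_comm]
    exact Finset.sum_congr rfl fun w _ => Finset.mul_sum _ _ _
  have h9 : ∑ v ∈ T, ∑ i, Pool.Agent.W232.VA.lam (fv v) (fm K n i) (ini z) =
      ∑ i, ∑ v ∈ T, Pool.Agent.W232.VA.lam (fv v) (fm K n i) (ini z) := Finset.sum_comm
  rw [h8] at h3
  rw [h9] at h4
  linarith

lemma N1_sub {z : Fin (n + 2) → K} (hz : ∑ i, z i = 0) (h0 : ∀ i, z i ≠ 0) (j : Fin (n + 2)) :
    N1 ∅ (fm K n) (ini z) ≤ lrOff z j + N1 ∅ (fun _ : Fin 1 => fm K n j) (ini z) := by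
  classical
  rw [← N1_eq hz h0 j]
  have hx : ini z ≠ 0 := ini_ne h0
  have hl : ∀ i, lin (fm K n i) (ini z) ≠ 0 := fun i => by rw [lin_fm hz]; exact h0 i
  obtain ⟨T, hT⟩ := exists_T (a := fm K n) fm_ne hx hl
  have hsupp : ∀ {r : ℕ} (b : Fin r → Fin (n + 1) → K) (hb : ∀ i, ∃ k, b i = fm K n k),
      N1 ∅ b (ini z) = ∑ v ∈ T, if v ∉ (∅ : Finset (HeightOneSpectrum (𝓞 K))) ∧
        ∃ i, 0 < Pool.Agent.W232.VA.lam (fv v) (b i) (ini z) then Real.log (Nv v) else 0 := by
    intro r b hb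
    unfold N1
    refine finsum_eq_sum_of_support_subset _ ?_
    intro v hv
    by_contra hvT
    apply hv
    simp only
    rw [if_neg]
    rintro ⟨_, i, hi⟩
    obtain ⟨k, hk⟩ := hb i
    rw [hk, hT v hvT k] at hi
    exact lt_irrefl _ hi
  rw [hsupp (fm K n) fun i => ⟨i, rfl⟩, hsupp (fun i => fm K n (j.succAbove i)) fun i => ⟨_, rfl⟩,
    hsupp (fun _ : Fin 1 => fm K n j) fun i => ⟨j, rfl⟩, ← Finset.sum_add_distrib]
  refine Finset.sum_le_sum fun v _ => ?_
  have hN := (log_Nv_pos v).le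
  by_cases h1 : ∃ i, 0 < Pool.Agent.W232.VA.lam (fv v) (fm K n i) (ini z)
  · rw [if_pos ⟨Finset.notMem_empty _, h1⟩]
    obtain ⟨i, hi⟩ := h1
    by_cases hij : i = j
    · rw [if_pos (c := v ∉ (∅ : Finset (HeightOneSpectrum (𝓞 K))) ∧
        ∃ _ : Fin 1, 0 < Pool.Agent.W232.VA.lam (fv v) (fm K n j) (ini z))
        ⟨Finset.notMem_empty _, 0, by rw [← hij]; exact hi⟩]
      split_ifs <;> linarith
    · obtain ⟨k, hk⟩ := Fin.exists_succAbove_eq hij
      rw [if_pos (c := v ∉ (∅ : Finset (HeightOneSpectrum (𝓞 K))) ∧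
        ∃ k, 0 < Pool.Agent.W232.VA.lam (fv v) (fm K n (j.succAbove k)) (ini z))
        ⟨Finset.notMem_empty _, k, by rw [hk]; exact hi⟩]
      split_ifs <;> linarith
  · rw [if_neg (fun h => h1 h.2)]
    split_ifs <;> linarith

end Q273.PN
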