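import Pool.Agent.Q273.PN.Main

/-!
# The abcd inequality with the target and the exact law
-/

set_option autoImplicit false
set_option linter.unusedSectionVars false

namespace Q273.PN

open MeasureTheory NumberField NumberField.mixedEmbedding NumberField.InfinitePlace
open IsDedekindDomain Pool.Agent.W232.VA Pool.Agent.H691R3 Height LinearAlgebra.Projectivization
open Q273.MV Q273.AD

variable {K : Type} [Field K] [NumberField K] {n : ℕ}

lemma bad_iff' (v : HeightOneSpectrum (𝓞 K)) {z : Fin (n + 2) → K} (hz : ∑ i, z i = 0)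
    (h0 : ∀ i, z i ≠ 0) :
    v ∈ bad z ↔ ∃ i, 0 < Pool.Agent.W232.VA.lam (fv v) (fm K n i) (ini z) := by
  have hx : ini z ≠ 0 := ini_ne h0
  have hm : ∀ i, fv v (z i) ≤ ⨆ k, fv v (ini z k) := by
    intro i
    refine Fin.lastCases ?_ (fun k => ?_) i
    · have h1 : z (Fin.last (n + 1)) = -∑ k : Fin (n + 1), z k.castSucc := by
        rw [Fin.sum_univ_castSucc] at hz
        linear_combination hz
      rw [h1, (fv v).map_neg]
      exact fv_sum_le v _ _ (sup_pos (fv v) (ini_ne h0)).le fun k _ => sup_le_of (fv v) (ini z) k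
    · exact sup_le_of (fv v) (ini z) k
  constructor
  · rintro ⟨i, i', hne⟩
    by_contra hno
    push Not at hno
    have h1 : ∀ i, fv v (z i) = ⨆ k, fv v (ini z k) := by
      intro i
      refine le_antisymm (hm i) ?_
      have h2 := hno i
      rw [lam_fm (fv v) hz] at h2
      have hp : 0 < fv v (z i) := (fv v).pos (h0 i)
      have hs : 0 < ⨆ k, fv v (ini z k) := sup_pos _ hx
      have h3 : (⨆ k, fv v (ini z k)) / fv v (z i) ≤ 1 := by
        by_contra h4
        exact absurd h2 (not_le.2 (Real.log_pos (not_le.1 h4)))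
      rwa [div_le_one hp] at h3
    exact hne ((h1 i).trans (h1 i').symm)
  · rintro ⟨i, hi⟩
    rw [lam_fm (fv v) hz] at hi
    obtain ⟨k, hk⟩ := sup_att (n := n) (fv v) (ini z)
    refine ⟨k.castSucc, i, ?_⟩
    intro heq
    have h1 : fv v (z i) = ⨆ k, fv v (ini z k) := by
      rw [hk]
      exact heq.symm
    rw [h1, div_self (sup_pos _ hx).ne', Real.log_one] at hi
    exact lt_irrefl _ hi

lemma lr_eq {z : Fin (n + 2) → K} (hz : ∑ i, z i = 0) (h0 : ∀ i, z i ≠ 0) :
    N1 ∅ (fm K n) (ini z) = lr z := by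
  classical
  unfold N1 lr
  rw [finsum_mem_def]
  refine finsum_congr fun v => ?_
  have h := bad_iff' v hz h0
  by_cases hv : v ∈ bad z
  · rw [Set.indicator_of_mem hv, if_pos ⟨Finset.notMem_empty _, h.1 hv⟩]
    rfl
  · rw [Set.indicator_of_notMem hv, if_neg]
    rintro ⟨_, h1⟩
    exact hv (h.2 h1)

/-- subadditivity of the truncated counting function -/
lemma N1_le_sum {z : Fin (n + 2) → K} (hz : ∑ i, z i = 0) (h0 : ∀ i, z i ≠ 0) {r : ℕ}
    (g : Fin r → Fin (n + 2)) :
    N1 ∅ (fun i => fm K n (g i)) (ini z) ≤ ∑ i, N1 ∅ (fun _ : Fin 1 => fm K n (g i)) (ini z) := by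
  classical
  have hx : ini z ≠ 0 := ini_ne h0
  have hl : ∀ i, lin (fm K n i) (ini z) ≠ 0 := fun i => by rw [lin_fm hz]; exact h0 i
  obtain ⟨T, hT⟩ := exists_T (a := fm K n) fm_ne hx hl
  have hsupp : ∀ {r : ℕ} (b : Fin r → Fin (n + 1) → K) (hb : ∀ i, ∃ k, b i = fm K n k),
      N1 ∅ b (ini z) = ∑ v ∈ T, if v ∉ (∅ : Finset (HeightOneSpectrum (𝓞 K))) ∧
        ∃ i, 0 < Pool.Agent.W232.VA.lam (fv v) (b i) (ini z) then Real.log (Nv v) else 0 := by
    intro r b hb
    unfold N1
    refine finsum_eq_sum_of_support_subset _ ?_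
    intro v hv
    by_contra hvT
    apply hv
    simp only
    rw [if_neg]
    rintro ⟨_, i, hi⟩
    obtain ⟨k, hk⟩ := hb i
    rw [hk, hT v hvT k] at hi
    exact lt_irrefl _ hi
  rw [hsupp (fun i => fm K n (g i)) fun i => ⟨_, rfl⟩,
    Finset.sum_congr rfl fun i _ => hsupp (fun _ : Fin 1 => fm K n (g i)) fun _ => ⟨_, rfl⟩,
    Finset.sum_comm]
  refine Finset.sum_le_sum fun v _ => ?_
  have hN := (log_Nv_pos v).le
  have hnn : ∀ i, 0 ≤ (if v ∉ (∅ : Finset (HeightOneSpectrum (𝓞 K))) ∧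
        ∃ _ : Fin 1, 0 < Pool.Agent.W232.VA.lam (fv v) (fm K n (g i)) (ini z) then
          Real.log (Nv v) else 0) := by
    intro i
    split_ifs
    · exact hN
    · exact le_rfl
  by_cases h1 : ∃ i, 0 < Pool.Agent.W232.VA.lam (fv v) (fm K n (g i)) (ini z)
  · rw [if_pos ⟨Finset.notMem_empty _, h1⟩]
    obtain ⟨i, hi⟩ := h1
    have h2 := Finset.single_le_sum (f := fun i => (if v ∉ (∅ : Finset (HeightOneSpectrum (𝓞 K))) ∧
        ∃ _ : Fin 1, 0 < Pool.Agent.W232.VA.lam (fv v) (fm K n (g i)) (ini z) then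
          Real.log (Nv v) else 0)) (fun i _ => hnn i) (Finset.mem_univ i)
    refine le_trans ?_ h2
    rw [if_pos ⟨Finset.notMem_empty _, 0, hi⟩]
  · rw [if_neg (fun h => h1 h.2)]
    exact Finset.sum_nonneg fun i _ => hnn i

/-- the height of the arrangement, for any number of hyperplanes -/
theorem hW_le_gen {r : ℕ} (a : Fin r → Fin (n + 1) → K) (ha : ∀ i, a i ≠ 0) :
    ∃ C : ℝ, 0 ≤ C ∧ ∀ x : Fin (n + 1) → K, x ≠ 0 → (∀ i, lin (a i) x ≠ 0) →
      hW a x ≤ (r : ℝ) * Real.log (mulHeight x) + C := by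
  classical
  have hn0 : (0 : ℝ) ≤ n := Nat.cast_nonneg n
  have hr0 : (0 : ℝ) ≤ r := Nat.cast_nonneg r
  have hlog : 0 ≤ Real.log ((n : ℝ) + 1) := Real.log_nonneg (by linarith)
  have hH0 : ∀ i, 0 ≤ Real.log (mulHeight (a i)) := fun i =>
    Real.log_nonneg (one_le_mulHeight _)
  refine ⟨∑ i, Real.log (mulHeight (a i)) + (Module.finrank ℚ K : ℝ) *
    ((r : ℝ) * Real.log ((n : ℝ) + 1)), ?_, ?_⟩
  · have h1 : 0 ≤ ∑ i, Real.log (mulHeight (a i)) := Finset.sum_nonneg fun i _ => hH0 i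
    have h2 : 0 ≤ (Module.finrank ℚ K : ℝ) * ((r : ℝ) * Real.log ((n : ℝ) + 1)) := by
      positivity
    linarith
  · intro x hx hl
    obtain ⟨T, hT⟩ := exists_T ha hx hl
    rw [hW_eq' hT]
    have h1 : ∀ w : InfinitePlace K, wt w.1 a x ≤
        ∑ i, Pool.Agent.W232.VA.lam w.1 (a i) x + (r : ℝ) * Real.log ((n : ℝ) + 1) := by
      intro w
      obtain ⟨I, _, hI⟩ := wt_att w.1 a x
      rw [hI]
      have h2 : ∑ i ∈ I, Pool.Agent.W232.VA.lam w.1 (a i) x ≤
          ∑ i ∈ I, (Pool.Agent.W232.VA.lam w.1 (a i) x + Real.log ((n : ℝ) + 1)) :=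
        Finset.sum_le_sum fun i _ => by linarith
      have h3 : ∑ i ∈ I, (Pool.Agent.W232.VA.lam w.1 (a i) x + Real.log ((n : ℝ) + 1)) ≤
          ∑ i, (Pool.Agent.W232.VA.lam w.1 (a i) x + Real.log ((n : ℝ) + 1)) :=
        Finset.sum_le_sum_of_subset_of_nonneg (Finset.subset_univ I) fun i _ _ => by
          have := lam_arch_ge w (ha i) hx (hl i)
          linarith
      have h4 : ∑ i, (Pool.Agent.W232.VA.lam w.1 (a i) x + Real.log ((n : ℝ) + 1)) =
          ∑ i, Pool.Agent.W232.VA.lam w.1 (a i) x + (r : ℝ) * Real.log ((n : ℝ) + 1) := by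
        rw [Finset.sum_add_distrib, Finset.sum_const, Finset.card_univ, Fintype.card_fin,
          nsmul_eq_mul]
      linarith
    have h2 : ∀ v : HeightOneSpectrum (𝓞 K), wt (fv v) a x ≤
        ∑ i, Pool.Agent.W232.VA.lam (fv v) (a i) x := by
      intro v
      obtain ⟨I, _, hI⟩ := wt_att (fv v) a x
      rw [hI]
      exact Finset.sum_le_sum_of_subset_of_nonneg (Finset.subset_univ I) fun i _ _ =>
        lam_fin_nonneg v (ha i) hx (hl i)
    have h3 : ∑ w : InfinitePlace K, (w.mult : ℝ) * wt w.1 a x ≤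
        ∑ w : InfinitePlace K, (w.mult : ℝ) * (∑ i, Pool.Agent.W232.VA.lam w.1 (a i) x +
          (r : ℝ) * Real.log ((n : ℝ) + 1)) :=
      Finset.sum_le_sum fun w _ => mul_le_mul_of_nonneg_left (h1 w) (Nat.cast_nonneg _)
    have h4 : ∑ w : InfinitePlace K, (w.mult : ℝ) * (∑ i, Pool.Agent.W232.VA.lam w.1 (a i) x +
          (r : ℝ) * Real.log ((n : ℝ) + 1)) =
        ∑ i, ∑ w : InfinitePlace K, (w.mult : ℝ) * Pool.Agent.W232.VA.lam w.1 (a i) x +
          (Module.finrank ℚ K : ℝ) * ((r : ℝ) * Real.log ((n : ℝ) + 1)) := by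
      rw [← sum_mult_real, Finset.sum_mul, Finset.sum_comm,
        ← Finset.sum_add_distrib]
      refine Finset.sum_congr rfl fun w _ => ?_
      rw [mul_add, Finset.mul_sum]
    have h5 : ∑ v ∈ T, wt (fv v) a x ≤
        ∑ i, ∑ v ∈ T, Pool.Agent.W232.VA.lam (fv v) (a i) x := by
      rw [Finset.sum_comm]
      exact Finset.sum_le_sum fun v _ => h2 v
    have h6 : ∑ i, (∑ w : InfinitePlace K, (w.mult : ℝ) * Pool.Agent.W232.VA.lam w.1 (a i) x +
        ∑ v ∈ T, Pool.Agent.W232.VA.lam (fv v) (a i) x) =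
        ∑ i, (Real.log (mulHeight (a i)) + Real.log (mulHeight x)) :=
      Finset.sum_congr rfl fun i _ => sum_lam' (ha i) hx (hl i) T fun v hv => hT v hv i
    rw [Finset.sum_add_distrib, Finset.sum_add_distrib, Finset.sum_const, Finset.card_univ,
      Fintype.card_fin, nsmul_eq_mul] at h6
    linarith

/-- the point of the projective space given by the first coordinates -/
lemma exists_point2 {z : Fin (n + 2) → K} (hz : ∑ i, z i = 0) (h0 : ∀ i, z i ≠ 0) :
    ∃ P : ℙ K (Fin (n + 1) → K), P.mulHeight = mulHeight (ini z) ∧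
      (∀ i, lin (fm K n i) P.rep ≠ 0) ∧ N1 ∅ (fm K n) P.rep = lr z ∧
      hW (fm K n) P.rep = hW (fm K n) (ini z) ∧
      Q273.MV.aff P = fun j : Fin n => z j.succ.castSucc / z 0 := by
  have hx : ini z ≠ 0 := ini_ne h0
  let P := Projectivization.mk K (ini z) hx
  obtain ⟨t, ht⟩ := Projectivization.exists_smul_eq_mk_rep K (ini z) hx
  have ht0 : (t : K) ≠ 0 := t.ne_zero
  have hrep : P.rep = (t : K) • ini z := ht.symm
  have htr := transfer ∅ (a := fm K n) (b := fm K n) (s := 1) one_ne_zero ht0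
    (fun i => (one_smul K _).symm) hrep
  refine ⟨P, ?_, ?_, ?_, ?_, ?_⟩
  · exact Projectivization.mulHeight_mk _
  · intro i
    rw [hrep, lin_smul_right, lin_fm hz]
    exact mul_ne_zero ht0 (h0 i)
  · rw [← lr_eq hz h0]
    exact htr.1
  · exact htr.2
  · funext j
    unfold Q273.MV.aff
    rw [hrep]
    simp only [Pi.smul_apply, smul_eq_mul]
    rw [mul_div_mul_left _ _ ht0]
    rfl

open scoped Classical in
/-- the inequality with the target -/
theorem upper2 (hn : 1 ≤ n) [MeasurableSpace (FinAd K n)] [BorelSpace (FinAd K n)]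
    (μ : Measure (FinAd K n)) [IsFiniteMeasure μ] [μ.IsAddLeftInvariant] :
    ∀ᵐ p : (Fin n → mixedSpace K) × FinAd K n ∂(volume.prod μ),
      ∀ (V : Finset (HeightOneSpectrum (𝓞 K))) (ε : ℝ), 0 < ε → ∃ C : ℝ,
      ∀ z : Fin (n + 2) → K, ∑ i, z i = 0 → (∀ i, z i ≠ 0) →
        (((n : ℝ) + 1 / 2 + ε) * Real.log (mulHeight z) ≤ n * px V p z ∨
          ((n : ℝ) + 3 / 2 + ε) * Real.log (mulHeight z) ≤ lr z) →
        Real.log (mulHeight z) + n * px V p z ≤ lr z + ε * Real.log (mulHeight z) + C := by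
  classical
  filter_upwards [Q273.AD.lawA Q273.AD.fae' hn μ, upper hn μ] with p hp hup V ε hε
  obtain ⟨C, hC⟩ := hp _ (fm K n) fm_ne ∅ V ε hε
  obtain ⟨C2, hC2⟩ := hup V ε hε
  obtain ⟨C1, hC1, hW1⟩ := hW_le_gen (fm K n) fm_ne
  set c0 : ℝ := Module.finrank ℚ K * Real.log (n + 1) with hc0
  have hn0 : (0 : ℝ) ≤ n := Nat.cast_nonneg n
  have hc00 : 0 ≤ c0 := by
    rw [hc0]
    exact mul_nonneg (Nat.cast_nonneg _) (Real.log_nonneg (by linarith))
  refine ⟨|C| + |C2| + c0 + C1 / ε, fun z hz h0 hle => ?_⟩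
  have hCε : 0 ≤ C1 / ε := by positivity
  obtain ⟨P, h1, h2, h3, h3', h4⟩ := exists_point2 hz h0
  have hx : ini z ≠ 0 := ini_ne h0
  have hl : ∀ i, lin (fm K n i) (ini z) ≠ 0 := fun i => by rw [lin_fm hz]; exact h0 i
  obtain ⟨g1, g2⟩ := height_ini hz h0
  rw [← h1, ← hc0] at g2
  rw [← h1] at g1
  have hh0 : 0 ≤ Real.log P.mulHeight := by
    rw [h1]; exact Real.log_nonneg (one_le_mulHeight _)
  have hεh : ε * Real.log P.mulHeight ≤ ε * Real.log (mulHeight z) :=
    mul_le_mul_of_nonneg_left g1 hε.le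
  have hCa := le_abs_self C
  have hCb := le_abs_self C2
  have hCa0 := abs_nonneg C
  have hCb0 := abs_nonneg C2
  -- the case where the law applies
  have main : (((n : ℝ) + 1 / 2 + ε) * Real.log P.mulHeight ≤ n * px V p z ∨
      hW (fm K n) (ini z) - lr z ≤ 1 / 2 * Real.log P.mulHeight) →
      Real.log (mulHeight z) + n * px V p z ≤ lr z + ε * Real.log (mulHeight z) +
        (|C| + c0) := by
    intro hcase
    have h5 := hC P h2
    rw [h3, h3', h4] at h5
    have h6 := h5 hcase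
    have h7 := hW_total hz h0
    rw [← h1] at h7
    unfold px at hcase ⊢
    linarith
  rcases hle with hle | hle
  · have h6 : ((n : ℝ) + 1 / 2 + ε) * Real.log P.mulHeight ≤ n * px V p z :=
      le_trans (mul_le_mul_of_nonneg_left g1 (by positivity)) hle
    have h7 := main (Or.inl h6)
    linarith
  · by_cases hsmall : C1 ≤ ε * Real.log P.mulHeight
    · have h6 : hW (fm K n) (ini z) - lr z ≤ 1 / 2 * Real.log P.mulHeight := by
        have h7 := hW1 (ini z) hx hl
        rw [← h1] at h7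
        push_cast at h7
        have h8 : ((n : ℝ) + 3 / 2 + ε) * Real.log P.mulHeight ≤
            ((n : ℝ) + 3 / 2 + ε) * Real.log (mulHeight z) :=
          mul_le_mul_of_nonneg_left g1 (by positivity)
        linarith
      have h7 := main (Or.inr h6)
      linarith
    · rw [not_le] at hsmall
      have h6 : Real.log P.mulHeight ≤ C1 / ε := by
        rw [le_div_iff₀ hε]
        linarith
      have h7 := hC2 z hz h0 0
      have h8 := lrOff_le h0 0
      linarith

lemma fm_dist (i l : Fin (n + 2)) (hil : i ≠ l) (hn : 1 ≤ n) (c : K) :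
    fm K n i ≠ c • fm K n l := by
  intro h
  -- choose an index different from both, or use the basis without another index
  by_cases hc : ∃ j : Fin (n + 2), j ≠ i ∧ j ≠ l
  · obtain ⟨j, hji, hjl⟩ := hc
    obtain ⟨a, ha⟩ := Fin.exists_succAbove_eq (Ne.symm hji)
    obtain ⟨b, hb⟩ := Fin.exists_succAbove_eq (Ne.symm hjl)
    have hab : a ≠ b := by
      rintro rfl
      exact hil (ha.symm.trans hb)
    have h1 := (linearIndependent_iff'.1 (fm_indep (K := K) j)) Finset.univ
      (fun k => if k = a then 1 else if k = b then -c else 0) (by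
        have h2 : ∀ k : Fin (n + 1), (if k = a then (1 : K) else if k = b then -c else 0) •
            fm K n (j.succAbove k) = (if k = a then fm K n i else 0) +
              (if k = b then -(c • fm K n l) else 0) := by
          intro k
          by_cases hka : k = a
          · subst hka
            rw [if_pos rfl, if_pos rfl, if_neg hab, one_smul, ha, add_zero]
          · rw [if_neg hka, if_neg hka, zero_add]
            by_cases hkb : k = b
            · rw [if_pos hkb, if_pos hkb, hkb, hb, neg_smul]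
            · rw [if_neg hkb, if_neg hkb, zero_smul]
        rw [Finset.sum_congr rfl fun k _ => h2 k, Finset.sum_add_distrib,
          Finset.sum_ite_eq', Finset.sum_ite_eq', if_pos (Finset.mem_univ _),
          if_pos (Finset.mem_univ _), h, add_neg_cancel]) a (Finset.mem_univ a)
    rw [if_pos rfl] at h1
    exact one_ne_zero h1
  · exfalso
    apply hc
    have hcard : 2 < Fintype.card (Fin (n + 2)) := by
      rw [Fintype.card_fin]
      omega
    obtain ⟨j, hj⟩ : ∃ j, j ∉ ({i, l} : Finset (Fin (n + 2))) := by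
      by_contra hno
      push Not at hno
      have h1 : (Finset.univ : Finset (Fin (n + 2))) ⊆ {i, l} := fun j _ => hno j
      have h2 := Finset.card_le_card h1
      have h3 : ({i, l} : Finset (Fin (n + 2))).card ≤ 2 := Finset.card_le_two
      rw [Finset.card_univ] at h2
      omega
    rw [Finset.mem_insert, Finset.mem_singleton, not_or] at hj
    exact ⟨j, hj.1, hj.2⟩

open scoped Classical in
/-- every distribution of the proximities and of the losses which is not excluded occurs -/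
theorem exact2 (hn : 1 ≤ n) [MeasurableSpace (FinAd K n)] [BorelSpace (FinAd K n)]
    (μ : Measure (FinAd K n)) [IsFiniteMeasure μ] [μ.IsAddLeftInvariant] :
    ∀ᵐ p : (Fin n → mixedSpace K) × FinAd K n ∂(volume.prod μ),
      ∀ (V : Finset (HeightOneSpectrum (𝓞 K)))
        (τ : InfinitePlace K → ℝ) (σ : HeightOneSpectrum (𝓞 K) → ℝ) (δ : Fin (n + 2) → ℝ),
      (∀ w, 0 ≤ τ w) → (∀ v, 0 ≤ σ v) → (∀ i, 0 ≤ δ i) → ∑ i, δ i ≤ 1 / 2 →
      ∑ w, τ w + ∑ v ∈ V, σ v + ∑ i, δ i ≤ n + 1 →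
      ∀ ε : ℝ, 0 < ε → ∀ B : ℝ, ∃ z : Fin (n + 2) → K, ∑ i, z i = 0 ∧ (∀ i, z i ≠ 0) ∧
        B ≤ Real.log (mulHeight z) ∧
        (∀ w : InfinitePlace K, |n * ((w.mult : ℝ) *
          pw p.1 w (fun j : Fin n => z j.succ.castSucc / z 0)) - τ w * Real.log (mulHeight z)| ≤
          ε * Real.log (mulHeight z)) ∧
        (∀ v ∈ V, |n * pv v (p.2 v) (fun j : Fin n => z j.succ.castSucc / z 0) -
          σ v * Real.log (mulHeight z)| ≤ ε * Real.log (mulHeight z)) ∧
        |lr z - ((n : ℝ) + 2 - ∑ i, δ i) * Real.log (mulHeight z)| ≤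
          ε * Real.log (mulHeight z) ∧
        ∀ j, |lrOff z j - ((n : ℝ) + 1 - (∑ i, δ i - δ j)) * Real.log (mulHeight z)| ≤
          ε * Real.log (mulHeight z) := by
  classical
  filter_upwards [Q273.AD.lawA Q273.AD.fae' hn μ, Q273.AD.gen_aeA μ] with p hlaw hgen
  intro V τ σ δ hτ hσ hδ hΔ hsum ε hε B
  -- sizes
  set c0 : ℝ := Module.finrank ℚ K * Real.log (n + 1) with hc0
  have hc00 : 0 ≤ c0 := by
    rw [hc0]
    exact mul_nonneg (Nat.cast_nonneg _) (Real.log_nonneg (by
      have : (0 : ℝ) ≤ n := Nat.cast_nonneg n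
      linarith))
  have hn0 : (0 : ℝ) ≤ n := Nat.cast_nonneg n
  have hΔ0 : 0 ≤ ∑ i, δ i := Finset.sum_nonneg fun i _ => hδ i
  have hδle : ∀ i, δ i ≤ ∑ i, δ i := fun i =>
    Finset.single_le_sum (f := δ) (fun i _ => hδ i) (Finset.mem_univ i)
  have hτle : ∀ w, τ w ≤ n + 2 := fun w => by
    have h1 := Finset.single_le_sum (f := τ) (fun w _ => hτ w) (Finset.mem_univ w)
    have h2 : 0 ≤ ∑ v ∈ V, σ v := Finset.sum_nonneg fun v _ => hσ v
    linarith
  have hσle : ∀ v ∈ V, σ v ≤ n + 2 := fun v hv => by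
    have h1 := Finset.single_le_sum (f := σ) (fun v _ => hσ v) hv
    have h2 : 0 ≤ ∑ w, τ w := Finset.sum_nonneg fun w _ => hτ w
    linarith
  set Y : ℝ := (2 / ε) * (((n : ℝ) + 2) * c0) with hY
  set ε1 : ℝ := ε / (4 * ((n : ℝ) + 3)) with hε1
  have hε10 : 0 < ε1 := by positivity
  have hε1m : ((n : ℝ) + 3) * ε1 = ε / 4 := by
    rw [hε1]; field_simp
  obtain ⟨P, h1, h2, h3, h4, h4', h5, h6⟩ := Q273.AD.sharpA2 hn hgen.1 hgen.2 ∅ (fm K n)
    fm_ne (fun i l hil => fm_dist i l hil hn) (hlaw _ (fm K n) fm_ne ∅) V τ σ δ hτ hσ hδ hΔ hsum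
    ε1 hε10 (max (max B 1) Y)
  let z : Fin (n + 2) → K := fun i => lin (fm K n i) P.rep
  have hini : ini z = P.rep := by
    funext k
    show lin (fm K n k.castSucc) P.rep = P.rep k
    rw [fm_cast]
    unfold lin
    simp [Pi.single_apply]
  have hz : ∑ i, z i = 0 := by
    rw [Fin.sum_univ_castSucc]
    have e1 : ∀ k : Fin (n + 1), z k.castSucc = P.rep k := fun k => congrFun hini k
    have e2 : z (Fin.last (n + 1)) = -∑ k, P.rep k := by
      show lin (fm K n (Fin.last (n + 1))) P.rep = _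
      rw [fm_last]
      unfold lin
      simp
    rw [Finset.sum_congr rfl fun k _ => e1 k, e2, add_neg_cancel]
  have h0 : ∀ i, z i ≠ 0 := h1
  have haff : (fun j : Fin n => z j.succ.castSucc / z 0) = Q273.MV.aff P := by
    funext j
    unfold Q273.MV.aff
    have e1 : z j.succ.castSucc = P.rep j.succ := congrFun hini j.succ
    have e2 : z 0 = P.rep 0 := congrFun hini 0
    rw [e1, e2]
  set h : ℝ := Real.log P.mulHeight with hh
  have hrep : h = Real.log (mulHeight (ini z)) := by rw [hh, mulHeight_rep, hini]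
  obtain ⟨g1, g2⟩ := height_ini hz h0
  rw [← hrep, ← hc0] at g2
  rw [← hrep] at g1
  set H : ℝ := Real.log (mulHeight z) with hH
  have hB : B ≤ h := (le_max_left _ _).trans ((le_max_left _ _).trans h3)
  have h1h : 1 ≤ h := (le_max_right _ _).trans ((le_max_left _ _).trans h3)
  have hYh : Y ≤ h := (le_max_right _ _).trans h3
  have hYε : ((n : ℝ) + 2) * c0 ≤ ε / 2 * h := by
    have : ε / 2 * Y = ((n : ℝ) + 2) * c0 := by
      rw [hY]; field_simp
    rw [← this]
    exact mul_le_mul_of_nonneg_left hYh (by positivity)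
  have hεh : ε * h ≤ ε * H := mul_le_mul_of_nonneg_left g1 hε.le
  have gen : ∀ (t m : ℝ), 0 ≤ t → t ≤ n + 2 → |m - t * h| ≤ ε / 4 * h →
      |m - t * H| ≤ ε * H := by
    intro t m ht0 ht1 hm
    rw [abs_le] at hm ⊢
    have e1 : t * h ≤ t * H := mul_le_mul_of_nonneg_left g1 ht0
    have e2 : t * H ≤ t * h + t * c0 := by
      have := mul_le_mul_of_nonneg_left g2 ht0
      linarith
    have e3 : t * c0 ≤ ((n : ℝ) + 2) * c0 := mul_le_mul_of_nonneg_right ht1 hc00
    have e4 : 0 ≤ ε * h := by positivity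
    constructor
    · linarith [hm.1]
    · linarith [hm.2]
  have hε1h : 0 ≤ ε1 * h := by positivity
  have hn1h : ε1 * h ≤ ε / 4 * h := by
    have : ε1 ≤ ε / 4 := by
      rw [← hε1m]
      nlinarith
    exact mul_le_mul_of_nonneg_right this (by linarith)
  have hε1mh : ((n : ℝ) + 3) * (ε1 * h) = ε / 4 * h := by
    rw [← hε1m]; ring
  -- the counting functions
  have k1 := hW_total hz h0
  rw [← hrep, hini] at k1
  have k3 := h5
  have k4 := h6
  rw [abs_le] at k3
  have klow : ((n : ℝ) + 2 - ∑ i, δ i) * h - ε1 * h ≤ lr z := by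
    rw [← lr_eq hz h0, hini]
    linarith [k3.2]
  have k4u : ∀ i, N1 ∅ (fun _ : Fin 1 => fm K n i) (ini z) ≤ (1 - δ i + ε1) * h := by
    intro i
    have := k4 i
    rw [abs_le] at this
    rw [hini]
    linarith [this.1]
  have kup : lr z ≤ ((n : ℝ) + 2 - ∑ i, δ i) * h + ((n : ℝ) + 2) * (ε1 * h) := by
    rw [← lr_eq hz h0]
    have e1 := N1_le_sum hz h0 (fun i : Fin (n + 2) => i)
    have e2 : ∑ i : Fin (n + 2), N1 ∅ (fun _ : Fin 1 => fm K n i) (ini z) ≤
        ∑ i : Fin (n + 2), (1 - δ i + ε1) * h := Finset.sum_le_sum fun i _ => k4u i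
    rw [← Finset.sum_mul, Finset.sum_add_distrib, Finset.sum_sub_distrib, Finset.sum_const,
      Finset.sum_const, Finset.card_univ, Fintype.card_fin, nsmul_eq_mul, nsmul_eq_mul] at e2
    push_cast at e2
    linarith
  refine ⟨z, hz, h0, hB.trans g1, fun w => ?_, fun v hv => ?_, ?_, fun j => ?_⟩
  · rw [haff]
    exact gen _ _ (hτ w) (hτle w) ((h4 w).trans hn1h)
  · rw [haff]
    exact gen _ _ (hσ v) (hσle v hv) ((h4' v hv).trans hn1h)
  · refine gen _ _ (by linarith) (by linarith) ?_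
    rw [abs_le]
    constructor
    · linarith
    · linarith
  · refine gen _ _ (by linarith [hδ j]) (by linarith [hδle j]) ?_
    have k2 := N1_sub hz h0 j
    rw [lr_eq hz h0] at k2
    have e0 := k4u j
    have e1 : lrOff z j ≤ ((n : ℝ) + 1 - (∑ i, δ i - δ j)) * h + ((n : ℝ) + 1) * (ε1 * h) := by
      rw [← N1_eq hz h0 j]
      have e1 := N1_le_sum hz h0 (fun i => j.succAbove i)
      have e2 : ∑ i : Fin (n + 1), N1 ∅ (fun _ : Fin 1 => fm K n (j.succAbove i)) (ini z) ≤
          ∑ i : Fin (n + 1), (1 - δ (j.succAbove i) + ε1) * h :=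
        Finset.sum_le_sum fun i _ => k4u _
      rw [← Finset.sum_mul, Finset.sum_add_distrib, Finset.sum_sub_distrib, Finset.sum_const,
        Finset.sum_const, Finset.card_univ, Fintype.card_fin, nsmul_eq_mul, nsmul_eq_mul] at e2
      push_cast at e2
      have e3 := Fin.sum_univ_succAbove δ j
      have e4 : ∑ i, δ (j.succAbove i) = ∑ i, δ i - δ j := by rw [e3]; ring
      rw [e4] at e2
      linarith
    have e9 : 0 ≤ (n : ℝ) * (ε1 * h) := mul_nonneg hn0 hε1h
    rw [abs_le]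
    constructor
    · linarith
    · linarith

end Q273.PN
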