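import Pool.Agent.W232.VA.Q

/-!
# The truncated Vojta inequality for a simplex of hyperplanes: statement of the count
-/

set_option autoImplicit false

open NumberField IsDedekindDomain Height LinearAlgebra.Projectivization
open Pool.Agent.W232.VA

namespace Q273.PN

/-- job CNTR: the points of small truncated counting function with respect to `n + 1` linearly
independent hyperplanes of `ℙ^n`, for the whole range `0 ≤ κ ≤ n + 1` (the theorem `main2` of
`Pool/Agent/W232/VA/Q.lean` has arbitrary arrangements and `κ ≤ 1/2`) -/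
def S_CNTR : Prop :=
  ∀ (K : Type) [Field K] [NumberField K] (n : ℕ) (a : Fin (n + 1) → Fin (n + 1) → K),
    LinearIndependent K a → ∀ (S : Finset (HeightOneSpectrum (𝓞 K))) (κ c δ : ℝ),
    0 ≤ κ → κ ≤ n + 1 → 0 < δ → ∃ M : ℝ, ∀ B : ℝ, 1 ≤ B →
      (Exc S a κ c B).Finite ∧ ((Exc S a κ c B).ncard : ℝ) ≤ M * B ^ ((n : ℝ) + 1 - κ + δ)

end Q273.PN
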